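import Mathlib

set_option autoImplicit false

namespace Pool.Agent.Results.MP_14431a_gt.Bound

open Set Filter Topology Cardinal TopologicalSpace Order

/-- least cardinality of a base -/
noncomputable def weight (X : Type) [TopologicalSpace X] : Cardinal :=
  sInf {c | ∃ ℬ : Set (Set X), IsTopologicalBasis ℬ ∧ #ℬ = c}

def ProjWS (G : Type) [AddCommGroup G] [TopologicalSpace G] : Prop :=
  ∀ (H : Type) [AddCommGroup H] [TopologicalSpace H] [IsTopologicalAddGroup H] [T2Space H] (f : G →+ H),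
    Continuous f → Function.Surjective f → weight H ≤ #H

def OmegaBdd (G : Type) [TopologicalSpace G] : Prop :=
  ∀ S : Set G, S.Countable → IsCompact (closure S)

/-- `σ ≤ κ`. -/
def SigmaLe (κ : Cardinal) : Prop :=
  ∃ (G : Type) (_ : AddCommGroup G) (_ : TopologicalSpace G), IsTopologicalAddGroup G ∧ T2Space G ∧
    OmegaBdd G ∧ weight G ≤ κ ∧ ¬ProjWS G

section
variable {Λ : Type} (B : Set (Set Λ))

def K (a : ℕ → Λ) : Set (B → ZMod 2) := {h | ∀ b c : B, b.1 ∩ range a = c.1 ∩ range a → h b = h c}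

lemma mono {a a' : ℕ → Λ} (h : range a ⊆ range a') : K B a ⊆ K B a' := fun f hf b c e => hf b c (by
  rw [← inter_eq_left.2 h, inter_comm (range a), ← inter_assoc, ← inter_assoc, e])

lemma join (a : ℕ → ℕ → Λ) : ∃ a', ∀ n, K B (a n) ⊆ K B a' :=
  ⟨fun n => a n.unpair.1 n.unpair.2, fun n => mono B (by rintro _ ⟨m, rfl⟩; exact ⟨Nat.pair n m, by simp⟩)⟩

def H [Nonempty Λ] : AddSubgroup (B → ZMod 2) where
  carrier := ⋃ a, K B a
  zero_mem' := mem_iUnion.2 ⟨Classical.arbitrary _, fun _ _ _ => rfl⟩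
  neg_mem' := fun h => (mem_iUnion.1 h).elim fun a e => mem_iUnion.2 ⟨a, fun b c q => congrArg Neg.neg (e b c q)⟩
  add_mem' := fun h k => by
    obtain ⟨a, e⟩ := mem_iUnion.1 h
    obtain ⟨a', e'⟩ := mem_iUnion.1 k
    obtain ⟨s, hs⟩ := join B fun n => if n = 0 then a else a'
    exact mem_iUnion.2 ⟨s, fun b c q => congrArg₂ (· + ·) (hs 0 e b c q) (hs 1 e' b c q)⟩

lemma nb [Nonempty Λ] {x : H B} {U : Set (H B)} (h : U ∈ 𝓝 x) :
    ∃ F : Finset B, ∀ y : H B, (∀ p ∈ F, y.1 p = x.1 p) → y ∈ U := by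
  obtain ⟨T, t1, t2⟩ := (mem_nhds_induced _ _ _).1 h
  rw [nhds_pi, Filter.mem_pi] at t1
  obtain ⟨F, f1, t, f2, f3⟩ := t1
  exact ⟨f1.toFinset, fun y hy => t2 (f3 fun p hp => hy p (f1.mem_toFinset.2 hp) ▸ mem_of_mem_nhds (f2 p))⟩
end

lemma core {Λ : Type} [Nonempty Λ] (B : Set (Set Λ)) {μ : Cardinal} (m : ℵ₀ ≤ μ) (h1 : #Λ ^ ℵ₀ ≤ μ)
    (h2 : ∀ a : ℕ → Λ, 2 ^ #((· ∩ range a) '' B) ≤ μ) (h3 : #B = succ μ) : SigmaLe (succ μ) := by
  classical
  have inf : Infinite B := infinite_iff.2 (h3 ▸ m.trans (le_succ μ))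
  have ne : {c | ∃ ℬ : Set (Set (H B)), IsTopologicalBasis ℬ ∧ #ℬ = c}.Nonempty := ⟨_, _, isTopologicalBasis_opens, rfl⟩
  refine ⟨H B, inferInstance, inferInstance, inferInstance, inferInstance, fun S hS => ?_, ?_, fun p => ?_⟩
  · obtain ⟨f, hf⟩ := countable_iff_exists_subset_range.1 hS
    choose a ha using fun n => mem_iUnion.1 (f n).2
    obtain ⟨s, hs⟩ := join B a
    have c : IsClosed (K B s) := by
      simp only [K, ofPred_forall]
      exact isClosed_iInter fun b => isClosed_iInter fun c => isClosed_iInter fun _ =>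
        isClosed_eq (continuous_apply b) (continuous_apply c)
    refine IsCompact.closure_of_subset (K := Subtype.val ⁻¹' K B s) ?_ fun x hx => ?_
    · rw [Subtype.isCompact_iff, image_preimage_eq_of_subset]
      · exact c.isCompact
      · exact fun x hx => ⟨⟨x, mem_iUnion.2 ⟨s, hx⟩⟩, rfl⟩
    · obtain ⟨n, rfl⟩ := hf hx
      exact hs n (ha n)
  · refine le_trans (csInf_le' ⟨range fun s : Finset (B × ZMod 2) => {y : H B | ∀ p ∈ s, y.1 p.1 = p.2},
      isTopologicalBasis_of_isOpen_of_nhds ?_ fun x U hx o => ?_, rfl⟩ : weight (H B) ≤ _) (mk_range_le.trans ?_)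
    · rintro _ ⟨s, rfl⟩
      simp only [ofPred_forall]
      exact isOpen_biInter_finset fun p _ => (isOpen_discrete {p.2}).preimage
        (f := fun y : H B => y.1 p.1) ((continuous_apply p.1).comp continuous_subtype_val)
    · obtain ⟨F, hF⟩ := nb B (o.mem_nhds hx)
      refine ⟨_, ⟨F.image fun p => (p, x.1 p), rfl⟩, fun q hq => by
        obtain ⟨p, -, rfl⟩ := Finset.mem_image.1 hq; rfl, fun y hy => hF y fun p hp => ?_⟩
      exact hy _ (Finset.mem_image_of_mem _ hp)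
    · rw [mk_finset_of_infinite, mk_prod, lift_id, lift_id, h3]
      exact mul_le_of_le (m.trans (le_succ μ)) le_rfl ((mk_le_aleph0.trans m).trans (le_succ μ))
  have c : #(H B) ≤ μ := by
    refine (mk_iUnion_le (K B)).trans (mul_le_of_le m (by simpa using h1) (ciSup_le' fun a => ?_))
    refine le_trans (mk_le_of_injective (f := fun h : K B a => fun t : (· ∩ range a) '' B =>
      h.1 ⟨t.2.choose, t.2.choose_spec.1⟩) fun h k e => Subtype.ext (funext fun b => ?_)) (by simpa using h2 a)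
    have q := (mem_image_of_mem (· ∩ range a) b.2).choose_spec
    exact (h.2 _ ⟨_, q.1⟩ q.2.symm).trans ((congrFun e ⟨_, mem_image_of_mem _ b.2⟩).trans (k.2 ⟨_, q.1⟩ _ q.2))
  obtain ⟨ℬ, b1, b2⟩ := csInf_mem ne
  have b3 : #ℬ ≤ μ := b2.le.trans ((p (H B) (AddMonoidHom.id _) continuous_id Function.surjective_id).trans c)
  choose U u1 u2 u3 using fun b : B => b1.exists_subset_of_mem_open (a := 0) (u := {y | y.1 b = 0}) rfl
    ((isOpen_discrete {0}).preimage ((continuous_apply b).comp continuous_subtype_val))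
  refine (lt_succ μ).not_ge (h3.ge.trans ((mk_le_mk_mul_of_mk_preimage_le (c := ℵ₀)
    (fun b => (⟨U b, u1 b⟩ : ℬ)) fun V => ?_).trans (mul_le_of_le m b3 m)))
  rcases ((fun b => (⟨U b, u1 b⟩ : ℬ)) ⁻¹' {V}).eq_empty_or_nonempty with e | ⟨b0, e0⟩
  · simp [e]
  obtain ⟨F, hF⟩ := nb B ((b1.isOpen (u1 b0)).mem_nhds (u2 b0))
  refine (lt_aleph0_iff_set_finite.2 (Finite.of_finite_image (f := fun b => (fun y : H B => fun p : F => y.1 p) ''
    {y | y.1 b = 0}) (toFinite _) fun b hb c hc e => ?_)).le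
  have k : ∀ b c : B, b ∈ (fun b => (⟨U b, u1 b⟩ : ℬ)) ⁻¹' {V} → (fun y : H B => fun p : F => y.1 p) '' {y | y.1 c = 0} ⊆
      (fun y : H B => fun p : F => y.1 p) '' {y | y.1 b = 0} → c.1 ⊆ b.1 := fun b c hb e i hi => by
    let y : H B := ⟨fun d => if i ∈ d.1 then 0 else 1, mem_iUnion.2 ⟨fun _ => i, fun d d' q => by
      have := Set.ext_iff.1 q i
      simp at this
      simp [this]⟩⟩
    obtain ⟨z, z1, z2⟩ := e ⟨y, if_pos hi, rfl⟩
    have e1 : U b0 = U b := congrArg Subtype.val (e0.trans hb.symm)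
    have := u3 b (e1 ▸ hF (y - z) fun p hp => sub_eq_zero.2 (congrFun z2 ⟨p, hp⟩).symm)
    have z3 : z.1 b = 0 := z1
    by_contra n
    simp [y, n, z3] at this
  exact Subtype.ext ((k c b hc e.le).antisymm (k b c hb e.ge))

theorem result : SigmaLe (succ (2 ^ 𝔠)) ∧
    ((∃ (Λ : Type) (ℱ : Set (Set Λ)), #Λ ≤ 𝔠 ∧ 𝔠 < #ℱ ∧ ∀ A : Set Λ, A.Countable → ((· ∩ A) '' ℱ).Countable) →
      SigmaLe (succ 𝔠)) := by
  refine ⟨?_, fun ⟨Λ, ℱ, h1, h2, h3⟩ => ?_⟩
  · obtain ⟨B, -, hB⟩ := le_mk_iff_exists_subset.1 (show succ (2 ^ 𝔠) ≤ #(univ : Set (Set (Set ℝ))) by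
      simpa [mk_real] using cantor (2 ^ 𝔠))
    refine core B (aleph0_le_continuum.trans (cantor _).le) (by simp [← power_mul, mk_real]) (fun a => ?_) hB
    refine power_le_power_left two_ne_zero ((mk_le_mk_of_subset (t := 𝒫 range a) ?_).trans ?_)
    · rintro _ ⟨b, -, rfl⟩; exact inter_subset_right
    · rw [mk_powerset]
      exact power_le_power_left two_ne_zero (countable_range a).le_aleph0
  · obtain ⟨B, b1, hB⟩ := le_mk_iff_exists_subset.1 (succ_le_of_lt h2)
    have : Nonempty Λ := by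
      by_contra! e
      exact h2.not_ge (mk_le_aleph0.trans aleph0_le_continuum)
    exact core B aleph0_le_continuum ((power_le_power_right h1).trans_eq continuum_power_aleph0)
      (fun a => power_le_power_left two_ne_zero ((h3 _ (countable_range a)).mono (image_mono b1)).le_aleph0) hB

end Pool.Agent.Results.MP_14431a_gt.Bound
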